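import Mathlib

/-!
MP_696a38_gt: barcode entropy of completely integrable Hamiltonian systems, definitions.
Closed symplectic manifolds `M = E/G`, where `E` is a symplectic vector space and the group `G`
acts on `E` by `a`; functions on `M` are `G`-invariant functions on `E`, and `G` is the
fundamental group of `M`.
-/

set_option autoImplicit false

namespace Pool.Agent.H30.PBE

open scoped ContDiff

variable {E : Type} [NormedAddCommGroup E] [NormedSpace ℝ E] {G : Type} [Group G]

/-- `om` is a symplectic form on the real vector space `E` of dimension `2n`. -/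
def Symplectic (om : E → E → ℝ) (n : ℕ) : Prop :=
  Module.finrank ℝ E = 2 * n ∧ (∀ (c : ℝ) (u v w : E), om (c • u + v) w = c * om u w + om v w) ∧
    (∀ v w, om w v = -om v w) ∧ ∀ v, (∀ w, om v w = 0) → v = 0

/-- `M = E/G` is a closed symplectic manifold: `a` is an action of the group `G` by affine
symplectic maps (with linear parts `L`), free, proper and cocompact. -/
def Closed (om : E → E → ℝ) (a : G → E → E) : Prop :=
  (∀ x, a 1 x = x) ∧ (∀ g h x, a (g * h) x = a g (a h x)) ∧ (∀ g x, a g x = x → g = 1) ∧
    (∀ g, ∃ L : E → E, (∀ (c : ℝ) (v w : E), L (c • v + w) = c • L v + L w) ∧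
      (∀ x, a g x = L x + a g 0) ∧ ∀ v w, om (L v) (L w) = om v w) ∧
    (∀ K : Set E, IsCompact K → {g | ∃ x ∈ K, a g x ∈ K}.Finite) ∧
    ∃ K : Set E, IsCompact K ∧ ∀ x, ∃ g, a g x ∈ K

/-- The derivative of `F` at `x` in the direction `v`. -/
noncomputable def D (F : E → ℝ) (x v : E) : ℝ := fderiv ℝ F x v

/-- `F` is a smooth function on `M = E/G`. -/
def SmoothFn (a : G → E → E) (F : E → ℝ) : Prop := ContDiff ℝ ∞ F ∧ ∀ g x, F (a g x) = F x

/-- Complete integrability of the Hamiltonian flow of `H` on `M`: there are `n` smooth functions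
`F_i` on `M`, such that the Hamiltonian vector `X` of each is in the kernel of the differentials
of `H` and of all `F_j` (the `F_i` are first integrals in involution), with differentials linearly
independent on an open dense set. -/
def Integrable (om : E → E → ℝ) (a : G → E → E) (H : E → ℝ) (n : ℕ) : Prop :=
  ∃ F : Fin n → E → ℝ, (∀ i, SmoothFn a (F i)) ∧
    (∀ i x, ∃ X, (∀ v, om X v = D (F i) x v) ∧ D H x X = 0 ∧ ∀ j, D (F j) x X = 0) ∧
    ∃ U : Set E, IsOpen U ∧ Dense U ∧
      ∀ x ∈ U, ∀ c : Fin n → ℝ, (∀ v, ∑ i, c i * D (F i) x v = 0) → c = 0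

/-- `x` is the lift of a 1-periodic orbit of `H` which closes up by `g`. -/
def Orbit (om : E → E → ℝ) (a : G → E → E) (H : E → ℝ) (g : G) (x : ℝ → E) : Prop :=
  ∀ t, (∃ v, HasDerivAt x v t ∧ ∀ w, om v w = D H (x t) w) ∧ x (t + 1) = a g (x t)

/-- The difference `A(x) - A(y)` of the values of the action functional of `H` at two paths `x`, `y`
with `x(1) = g x(0)`, `y(1) = g y(0)` (the second term is the area of the strip `(1-s)x + sy`). -/
noncomputable def action (om : E → E → ℝ) (H : E → ℝ) (x y : ℝ → E) : ℝ :=
  (∫ t in (0 : ℝ)..1, (H (x t) - H (y t))) +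
    (1 / 2) * ∫ t in (0 : ℝ)..1, om (x t - y t) (deriv x t + deriv y t)

/-- Two different action values in the class of `g` differ by at least `δ`. -/
def Gap (om : E → E → ℝ) (a : G → E → E) (H : E → ℝ) (g : G) (δ : ℝ) : Prop :=
  ∀ x y, Orbit om a H g x → Orbit om a H g y → action om H x y = 0 ∨ δ ≤ |action om H x y|

/-- `ξ` solves the linearised equation along `x` and closes up by the linear part of `g`. -/
def LinOrbit (om : E → E → ℝ) (a : G → E → E) (H : E → ℝ) (g : G) (x ξ : ℝ → E) : Prop :=
  ∀ t, (∃ v, HasDerivAt ξ v t ∧ ∀ w, om v w = D (fun y => D H y w) (x t) (ξ t)) ∧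
    ξ (t + 1) = a g (ξ t) - a g 0

/-- Up to time shift and deck transformations `y_1, …, y_N` are all the 1-periodic orbits of `H`
in the free homotopy class of `g`; they are transversally nondegenerate (the periodic solutions of
the linearised equation are the multiples of the velocity) and their action values are different
(modulo the periods of the action functional). -/
def OrbitList (om : E → E → ℝ) (a : G → E → E) (H : E → ℝ) (g : G) (N : ℕ)
    (y : Fin N → ℝ → E) : Prop :=
  (∀ i, Orbit om a H g (y i)) ∧
  (∀ i ξ, LinOrbit om a H g (y i) ξ → ∃ c : ℝ, ∀ t, ξ t = c • deriv (y i) t) ∧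
  (∀ x, Orbit om a H g x → ∃ i h, h * g = g * h ∧ ∃ τ : ℝ, ∀ t, x t = a h (y i (t + τ))) ∧
  ∀ i j, i ≠ j → ∀ h, h * g = g * h → action om H (y i) (fun t => a h (y j t)) ≠ 0

/-- Exponentially many nondegenerate periodic orbits: for all large `m` there are at least
`exp (κ m)` noncontractible free homotopy classes (conjugacy classes of `G`) in which `m H` has
exactly two 1-periodic orbits (circles of orbits), transversally nondegenerate and of different
action, and all action differences are zero or at least `δ`, with `δ` independent of `m`. -/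
def ExpOrbits (om : E → E → ℝ) (a : G → E → E) (H : E → ℝ) : Prop :=
  ∃ δ κ : ℝ, 0 < δ ∧ 0 < κ ∧ ∃ m0 : ℕ, ∀ m : ℕ, m0 ≤ m → ∃ S : Finset (ConjClasses G),
    Real.exp (κ * m) ≤ S.card ∧ ∀ C ∈ S, ∃ g : G, g ≠ 1 ∧ C = ConjClasses.mk g ∧
      Gap om a (fun x => m * H x) g δ ∧ ∃ y : Fin 2 → ℝ → E, OrbitList om a (fun x => m * H x) g 2 y

/-- `len H c j`, `j = 0, 1, …`, are the lengths of the bars, completed by zeros, of the filtered
Floer homology (over the field with two elements) of the time-one map of the autonomous
Hamiltonian `H` on `M` in the free homotopy class `c`; infinite bars have length `∞`. Only two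
properties of noncontractible classes are recorded: the length of a bar is a difference of action
values; and (the local Floer homology of a transversally nondegenerate orbit is `H_*(S¹)`, of rank
two, and the total Floer homology of a noncontractible class is zero) `N` orbits give `N` bars. -/
def Barcodes (om : E → E → ℝ) (a : G → E → E)
    (len : (E → ℝ) → ConjClasses G → ℕ → ENNReal) : Prop :=
  (∀ H, SmoothFn a H → ∀ g : G, g ≠ 1 → ∀ δ : ℝ, 0 < δ → Gap om a H g δ →
    ∀ j, len H (ConjClasses.mk g) j = 0 ∨ ENNReal.ofReal δ ≤ len H (ConjClasses.mk g) j) ∧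
  ∀ H, SmoothFn a H → ∀ g : G, g ≠ 1 → ∀ (N : ℕ) (y : Fin N → ℝ → E), OrbitList om a H g N y →
    (∃ δ : ℝ, 0 < δ ∧ Gap om a H g δ) → {j | len H (ConjClasses.mk g) j ≠ 0}.encard = N

/-- The barcode entropy: the supremum over `ε > 0` of `limsup (1/k) log b_ε(φ^k)`, where `b_ε` is
the number of bars of length greater than `ε` in all free homotopy classes; the `k`-th iterate of
the time-one map of `H` is the time-one map of `kH`. -/
noncomputable def hbar (len : (E → ℝ) → ConjClasses G → ℕ → ENNReal) (H : E → ℝ) : EReal :=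
  ⨆ (ε : ℝ) (_ : 0 < ε), Filter.limsup (fun k : ℕ => ENNReal.log
    (ENat.toENNReal {x : ConjClasses G × ℕ |
      ENNReal.ofReal ε < len (fun y => k * H y) x.1 x.2}.encard) / (k : EReal)) Filter.atTop

end Pool.Agent.H30.PBE
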