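import Pool.Agent.H25.BEN.Bridge
import Pool.Agent.H30.PBE.Defs

set_option autoImplicit false

namespace Pool.Agent.H30.PBE

open scoped ContDiff
open Pool.Agent.H25

variable {n : ℕ}

/-- the action of the deck group -/
def dact (M : BEN.ClosedSymplectic n) (g : M.Γ) (x : BEN.P n) : BEN.P n := g.1 x

theorem symplectic_om : Symplectic (BEN.om (n := n)) n := by
  refine ⟨?_, fun c u v w => ?_, fun v w => ?_, fun v h => ?_⟩
  · show Module.finrank ℝ ((Fin n → ℝ) × (Fin n → ℝ)) = 2 * n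
    rw [Module.finrank_prod, Module.finrank_fin_fun]
    ring
  · unfold BEN.om
    rw [Finset.mul_sum, ← Finset.sum_add_distrib]
    refine Finset.sum_congr rfl fun i _ => ?_
    simp only [Prod.fst_add, Prod.snd_add, Prod.smul_fst, Prod.smul_snd, Pi.add_apply,
      Pi.smul_apply, smul_eq_mul]
    ring
  · unfold BEN.om
    rw [← Finset.sum_neg_distrib]
    refine Finset.sum_congr rfl fun i _ => ?_
    ring
  · have h1 : ∀ i, v.1 i = 0 := fun i => by
      have := h (BEN.ep i)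
      unfold BEN.om BEN.ep at this
      simpa [Pi.single_apply, Finset.sum_sub_distrib] using this
    have h2 : ∀ i, v.2 i = 0 := fun i => by
      have := h (BEN.eq i)
      unfold BEN.om BEN.eq at this
      simpa [Pi.single_apply, Finset.sum_sub_distrib] using this
    exact Prod.ext (funext h1) (funext h2)

theorem closed_dact (M : BEN.ClosedSymplectic n) : Closed (BEN.om (n := n)) (dact M) := by
  refine ⟨fun x => rfl, fun g h x => rfl, fun g x hx => Subtype.ext (M.free g.1 g.2 x hx),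
    fun g => M.affine g.1 g.2, fun K hK => ?_, ?_⟩
  · have h1 := M.proper K hK
    have h2 : {g : M.Γ | ∃ x ∈ K, dact M g x ∈ K} = Subtype.val ⁻¹'
        {g : Equiv.Perm (BEN.P n) | g ∈ M.Γ ∧ ∃ x ∈ K, g x ∈ K} := by
      ext g
      constructor
      · intro h; exact ⟨g.2, h⟩
      · intro h; exact h.2
    rw [h2]
    exact h1.preimage Subtype.val_injective.injOn
  · obtain ⟨K, hK, h⟩ := M.cocompact
    refine ⟨K, hK, fun x => ?_⟩
    obtain ⟨g, hg, hx⟩ := h x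
    exact ⟨⟨g, hg⟩, hx⟩

theorem dd_expand (F : BEN.P n → ℝ) (x v : BEN.P n) :
    BEN.dd F x v = ∑ i, (v.1 i * BEN.dd F x (BEN.eq i) + v.2 i * BEN.dd F x (BEN.ep i)) := by
  have h : v = ∑ i, (v.1 i • BEN.eq i + v.2 i • BEN.ep i : BEN.P n) := by
    refine Prod.ext ?_ ?_
    · funext j
      rw [Prod.fst_sum]
      simp [BEN.eq, BEN.ep, Finset.sum_apply, Pi.single_apply]
    · funext j
      rw [Prod.snd_sum]
      simp [BEN.eq, BEN.ep, Finset.sum_apply, Pi.single_apply]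
  unfold BEN.dd
  conv_lhs => rw [h]
  rw [map_sum]
  refine Finset.sum_congr rfl fun i _ => ?_
  rw [map_add, map_smul, map_smul]
  rfl

theorem integrable_dact {M : BEN.ClosedSymplectic n} {H : BEN.P n → ℝ}
    (h : BEN.CompletelyIntegrable M H) : Integrable (BEN.om (n := n)) (dact M) H n := by
  obtain ⟨F, hF, hp, hH, hU⟩ := h
  refine ⟨F, hF, fun i x => ?_, hU⟩
  let X : BEN.P n := (fun j => BEN.dd (F i) x (BEN.ep j), fun j => -BEN.dd (F i) x (BEN.eq j))
  have hX : ∀ K : BEN.P n → ℝ, D K x X = BEN.pb K (F i) x := fun K => by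
    show BEN.dd K x X = _
    rw [dd_expand]
    unfold BEN.pb
    refine Finset.sum_congr rfl fun j _ => ?_
    ring
  refine ⟨X, fun v => ?_, by rw [hX]; exact hH i x, fun j => by rw [hX]; exact hp j i x⟩
  show BEN.om X v = BEN.dd (F i) x v
  rw [dd_expand]
  unfold BEN.om
  refine Finset.sum_congr rfl fun j _ => ?_
  ring

theorem orbit_iff {M : BEN.ClosedSymplectic n} {H : BEN.P n → ℝ} {g : M.Γ} {x : ℝ → BEN.P n} :
    Orbit (BEN.om (n := n)) (dact M) H g x ↔ BEN.PeriodicOrbit H (g : BEN.Deck M) x :=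
  ⟨fun h => ⟨fun t => (h t).1, fun t => (h t).2⟩, fun h t => ⟨h.ham t, h.per t⟩⟩

theorem gap_iff {M : BEN.ClosedSymplectic n} {H : BEN.P n → ℝ} {g : M.Γ} {δ : ℝ} :
    Gap (BEN.om (n := n)) (dact M) H g δ ↔ BEN.ActionGap H (g : BEN.Deck M) δ :=
  ⟨fun h x y hx hy => h x y (orbit_iff.2 hx) (orbit_iff.2 hy),
    fun h x y hx hy => h x y (orbit_iff.1 hx) (orbit_iff.1 hy)⟩

theorem list_iff {M : BEN.ClosedSymplectic n} {H : BEN.P n → ℝ} {g : M.Γ} {N : ℕ}
    {y : Fin N → ℝ → BEN.P n} :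
    OrbitList (BEN.om (n := n)) (dact M) H g N y ↔ BEN.OrbitList H (g : BEN.Deck M) N y := by
  constructor
  · rintro ⟨h1, h2, h3, h4⟩
    refine ⟨fun i => orbit_iff.1 (h1 i), fun i ξ hξ => h2 i ξ fun t => ⟨hξ.ham t, hξ.per t⟩,
      fun x hx => ?_, h4⟩
    obtain ⟨i, k, hk, τ, ht⟩ := h3 x (orbit_iff.2 hx)
    exact ⟨i, k, hk, τ, ht⟩
  · rintro ⟨h1, h2, h3, h4⟩
    refine ⟨fun i => orbit_iff.2 (h1 i), fun i ξ hξ => h2 i ξ ⟨fun t => (hξ t).1, fun t => (hξ t).2⟩,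
      fun x hx => ?_, h4⟩
    obtain ⟨i, k, hk, τ, ht⟩ := h3 x (orbit_iff.1 hx)
    exact ⟨i, k, hk, τ, ht⟩

/-- the old structure from the new predicate -/
def toBar {M : BEN.ClosedSymplectic n}
    {len : (BEN.P n → ℝ) → ConjClasses M.Γ → ℕ → ENNReal}
    (h : Barcodes (BEN.om (n := n)) (dact M) len) : BEN.FloerBarcodes M where
  len := len
  gap := fun H hH g hg δ hδ hgap => h.1 H hH g hg δ hδ (gap_iff.2 hgap)
  count := fun H hH g hg N y hy hgap => h.2 H hH g hg N y (list_iff.2 hy)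
    (hgap.imp fun _ hd => ⟨hd.1, gap_iff.2 hd.2⟩)

theorem main : ∃ (E : Type) (_ : NormedAddCommGroup E) (_ : NormedSpace ℝ E) (om : E → E → ℝ)
    (G : Type) (_ : Group G) (a : G → E → E) (H : E → ℝ), Symplectic om 3 ∧ Closed om a ∧
    SmoothFn a H ∧ Integrable om a H 3 ∧ ExpOrbits om a H ∧ (∃ len, Barcodes om a len) ∧
    ∀ len, Barcodes om a len → 0 < hbar len H := by
  obtain ⟨M, H, hH, hCI, ⟨δ, κ, hδ, hκ, m0, hm0⟩, ⟨B⟩, hB⟩ := BEN.final
  refine ⟨BEN.P 3, inferInstance, inferInstance, BEN.om, M.Γ, inferInstance, dact M, H,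
    symplectic_om, closed_dact M, hH, integrable_dact hCI, ?_, ⟨B.len, ?_⟩, fun len hlen => ?_⟩
  · refine ⟨δ, κ, hδ, hκ, m0, fun m hm => ?_⟩
    obtain ⟨S, hc, hS⟩ := hm0 m hm
    refine ⟨S, hc, fun C hC => ?_⟩
    obtain ⟨g, hg, hCg, hgap, y, hy⟩ := hS C hC
    exact ⟨g, hg, hCg, gap_iff.2 hgap, y, list_iff.2 hy⟩
  · exact ⟨fun H hH g hg δ hδ hgap => B.gap H hH g hg δ hδ (gap_iff.1 hgap),
      fun H hH g hg N y hy hgap => B.count H hH g hg N y (list_iff.1 hy)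
        (hgap.imp fun _ hd => ⟨hd.1, gap_iff.1 hd.2⟩)⟩
  · exact hB (toBar hlen)

end Pool.Agent.H30.PBE
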